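import Pool.Agent.Q283.SP.Stm

/-!
# Project SP of helper283: job KUM (helper193), adapted from the case `p = 2` of helper299
-/

set_option autoImplicit false

namespace Pool.Agent.Q193.SP

open IntermediateField

theorem kum : Pool.Agent.Q283.SP.S_KUM := by
  intro p _ Ω _ _ _ _ F _ ζ hζ φ hφ hadd
  classical
  have hp : p.Prime := Fact.out
  have hac : IsAlgClosure ℚ Ω := ⟨inferInstance, inferInstance⟩
  have hnormal : Normal ℚ Ω := IsAlgClosure.normal ℚ Ω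
  have hgal : IsGalois ℚ Ω := ⟨⟩
  have hone : φ 1 = 0 := by
    have h := hadd 1 1
    rw [one_mul] at h
    exact left_eq_add.1 h
  have hinv : ∀ σ, φ σ⁻¹ = - φ σ := by
    intro σ
    have h := hadd σ σ⁻¹
    rw [mul_inv_cancel, hone] at h
    exact (neg_eq_of_add_eq_zero_right h.symm).symm
  have hpow : ∀ (σ : F.fixingSubgroup) (i : ℕ), φ (σ ^ i) = i * φ σ := by
    intro σ i
    induction i with
    | zero => rw [pow_zero, hone, Nat.cast_zero, zero_mul]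
    | succ i ih =>
      rw [pow_succ, hadd, ih]
      push_cast
      ring
  -- the subgroup
  let N : Subgroup (Ω ≃ₐ[ℚ] Ω) :=
    { carrier := {σ | ∃ h : σ ∈ F.fixingSubgroup, φ ⟨σ, h⟩ = 0}
      mul_mem' := by
        rintro σ τ ⟨h1, h2⟩ ⟨h3, h4⟩
        refine ⟨F.fixingSubgroup.mul_mem h1 h3, ?_⟩
        have := hadd ⟨σ, h1⟩ ⟨τ, h3⟩
        rw [h2, h4, add_zero] at this
        exact this
      one_mem' := ⟨F.fixingSubgroup.one_mem, hone⟩
      inv_mem' := by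
        rintro σ ⟨h1, h2⟩
        refine ⟨F.fixingSubgroup.inv_mem h1, ?_⟩
        have := hinv ⟨σ, h1⟩
        rw [h2, neg_zero] at this
        exact this }
  have hNclosed : IsClosed (N : Set (Ω ≃ₐ[ℚ] Ω)) := by
    have h1 : (N : Set (Ω ≃ₐ[ℚ] Ω)) = Subtype.val '' {σ : F.fixingSubgroup | φ σ = 0} := by
      ext σ
      constructor
      · rintro ⟨h2, h3⟩
        exact ⟨⟨σ, h2⟩, h3, rfl⟩
      · rintro ⟨⟨τ, h2⟩, h3, rfl⟩
        exact ⟨h2, h3⟩
    rw [h1]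
    refine (InfiniteGalois.fixingSubgroup_isClosed F).isClosedEmbedding_subtypeVal.isClosedMap _ ?_
    exact (hφ.isClopen_fiber 0).1
  have hFN : (fixedField N).fixingSubgroup = N :=
    InfiniteGalois.fixingSubgroup_fixedField ⟨N, hNclosed⟩
  have hmemN : ∀ σ : F.fixingSubgroup, σ.1 ∈ N ↔ φ σ = 0 := by
    intro σ
    constructor
    · rintro ⟨_, h⟩
      exact h
    · intro h
      exact ⟨σ.2, h⟩
  have hF : ∀ w : Ω, (∀ σ ∈ F.fixingSubgroup, σ w = w) → w ∈ F := by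
    intro w hw
    rw [← InfiniteGalois.fixedField_fixingSubgroup F]
    exact (mem_fixedField_iff _ w).2 hw
  by_cases hall : ∀ σ : F.fixingSubgroup, φ σ = 0
  · refine ⟨1, 1, one_ne_zero, by simp, fun σ => ?_⟩
    rw [hall σ, ZMod.val_zero, pow_zero, one_mul, map_one]
  push Not at hall
  obtain ⟨s, hs⟩ := hall
  obtain ⟨τ, hτ⟩ : ∃ τ : F.fixingSubgroup, φ τ = 1 := by
    refine ⟨s ^ ((φ s)⁻¹).val, ?_⟩
    rw [hpow, ZMod.natCast_zmod_val, inv_mul_cancel₀ hs]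
  have hζp : (ζ : Ω) ^ p = 1 := by
    have := congrArg Subtype.val hζ.pow_eq_one
    simpa using this
  obtain ⟨ξ, hξ⟩ : ∃ ξ : Ω, ξ = (ζ : Ω) ^ (p - 1) := ⟨_, rfl⟩
  have hζξ : (ζ : Ω) * ξ = 1 := by
    rw [hξ, ← pow_succ', Nat.sub_add_cancel hp.one_le, hζp]
  have hfixF : ∀ (σ : F.fixingSubgroup) (x : F), σ.1 (x : Ω) = x := fun σ x => σ.2 x
  have hfixξ : ∀ σ : F.fixingSubgroup, σ.1 ξ = ξ := by
    intro σ
    rw [hξ, map_pow, hfixF]
  -- the characters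
  let M : IntermediateField ℚ Ω := fixedField N
  let χ : Fin p → (M →* Ω) := fun i =>
    ((((τ ^ (i : ℕ) : F.fixingSubgroup).1 : Ω ≃ₐ[ℚ] Ω) : Ω →+* Ω).comp (algebraMap M Ω) : M →+* Ω)
  have hχ : ∀ (i : Fin p) (z : M), χ i z = (τ ^ (i : ℕ) : F.fixingSubgroup).1 (z : Ω) := fun i z => rfl
  have hinj : Function.Injective χ := by
    intro i j hij
    have h1 : ((τ ^ (j : ℕ))⁻¹ * τ ^ (i : ℕ) : F.fixingSubgroup).1 ∈ N := by
      rw [← hFN]
      rw [IntermediateField.mem_fixingSubgroup_iff]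
      intro z hz
      have h2 := DFunLike.congr_fun hij ⟨z, hz⟩
      rw [hχ, hχ] at h2
      show ((τ ^ (j : ℕ))⁻¹ : F.fixingSubgroup).1 ((τ ^ (i : ℕ) : F.fixingSubgroup).1 z) = z
      have h3 : (τ ^ (i : ℕ) : F.fixingSubgroup).1 z = (τ ^ (j : ℕ) : F.fixingSubgroup).1 z := h2
      rw [h3]
      have h4 : ((τ ^ (j : ℕ))⁻¹ : F.fixingSubgroup).1 = ((τ ^ (j : ℕ) : F.fixingSubgroup).1)⁻¹ := rfl
      rw [h4]
      exact AlgEquiv.symm_apply_apply _ z
    rw [hmemN, hadd, hinv, hpow, hpow, hτ, mul_one, mul_one, neg_add_eq_zero] at h1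
    have h5 := (ZMod.natCast_eq_natCast_iff' _ _ _).1 h1
    rw [Nat.mod_eq_of_lt i.2, Nat.mod_eq_of_lt j.2] at h5
    exact (Fin.ext h5).symm
  have hli : LinearIndependent Ω (fun i : Fin p => (χ i : M → Ω)) :=
    (linearIndependent_monoidHom M Ω).comp χ hinj
  -- a good element
  obtain ⟨θ, hθ⟩ : ∃ θ : M, ∑ i : Fin p, ξ ^ (i : ℕ) * χ i θ ≠ 0 := by
    by_contra h
    push Not at h
    have h1 := (Fintype.linearIndependent_iff.1 hli) (fun i => ξ ^ (i : ℕ)) (by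
      funext z
      rw [Finset.sum_apply]
      exact h z) ⟨0, hp.pos⟩
    simp at h1
  obtain ⟨y, hy⟩ : ∃ y : Ω, y = ∑ i ∈ Finset.range p, ξ ^ i * (τ ^ i : F.fixingSubgroup).1 (θ : Ω) := ⟨_, rfl⟩
  have hy0 : y ≠ 0 := by
    rw [hy, Finset.sum_range (fun i => ξ ^ i * (τ ^ i : F.fixingSubgroup).1 (θ : Ω))]
    exact hθ
  have hθN : ∀ n : F.fixingSubgroup, φ n = 0 → n.1 (θ : Ω) = θ := fun n hn =>
    (mem_fixedField_iff N (θ : Ω)).1 θ.2 n.1 ((hmemN n).2 hn)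
  have hmul : ∀ (a b : F.fixingSubgroup) (z : Ω), a.1 (b.1 z) = (a * b).1 z := fun a b z => rfl
  have hyN : ∀ n : F.fixingSubgroup, φ n = 0 → n.1 y = y := by
    intro n hn
    rw [hy, map_sum]
    refine Finset.sum_congr rfl fun i _ => ?_
    rw [map_mul, map_pow, hfixξ, hmul]
    congr 1
    have h1 : n * τ ^ i = τ ^ i * ((τ ^ i)⁻¹ * n * τ ^ i) := by group
    have h2 : φ ((τ ^ i)⁻¹ * n * τ ^ i) = 0 := by
      rw [hadd, hadd, hinv, hn]
      ring
    rw [h1, ← hmul, hθN _ h2]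
  have hτy : τ.1 y = (ζ : Ω) * y := by
    obtain ⟨f, hf⟩ : ∃ f : ℕ → Ω, f = fun i => (ζ : Ω) * (ξ ^ i * (τ ^ i : F.fixingSubgroup).1 (θ : Ω)) := ⟨_, rfl⟩
    have h1 : (ζ : Ω) * y = ∑ i ∈ Finset.range p, f i := by
      rw [hy, Finset.mul_sum, hf]
    have h2 : τ.1 y = ∑ i ∈ Finset.range p, f (i + 1) := by
      rw [hy, map_sum, hf]
      refine Finset.sum_congr rfl fun i _ => ?_
      simp only
      rw [map_mul, map_pow, hfixξ, hmul, ← pow_succ', pow_succ ξ i]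
      linear_combination (-(ξ ^ i * (τ ^ (i + 1) : F.fixingSubgroup).1 (θ : Ω))) * hζξ
    have h3 : f p = f 0 := by
      rw [hf]
      simp only
      have h4 : φ (τ ^ p) = 0 := by
        rw [hpow, ZMod.natCast_self, zero_mul]
      have h5 : ξ ^ p = 1 := by
        rw [hξ, ← pow_mul, mul_comm, pow_mul, hζp, one_pow]
      rw [hθN _ h4, h5, pow_zero, pow_zero]
      rfl
    have h6 := Finset.sum_range_succ f p
    have h7 := Finset.sum_range_succ' f p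
    rw [h1, h2]
    rw [h6, h3] at h7
    exact (add_right_cancel h7).symm
  have hτk : ∀ k : ℕ, (τ ^ k : F.fixingSubgroup).1 y = (ζ : Ω) ^ k * y := by
    intro k
    induction k with
    | zero =>
      rw [pow_zero, pow_zero, one_mul]
      rfl
    | succ k ih =>
      rw [pow_succ', ← hmul, ih, map_mul, map_pow, hfixF, hτy]
      ring
  have hfin : ∀ σ : F.fixingSubgroup, σ.1 y = (ζ : Ω) ^ (φ σ).val * y := by
    intro σ
    have h1 : σ = τ ^ (φ σ).val * ((τ ^ (φ σ).val)⁻¹ * σ) := by group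
    have h2 : φ ((τ ^ (φ σ).val)⁻¹ * σ) = 0 := by
      rw [hadd, hinv, hpow, hτ, ZMod.natCast_zmod_val]
      ring
    calc σ.1 y = (τ ^ (φ σ).val).1 (((τ ^ (φ σ).val)⁻¹ * σ).1 y) := by
          rw [hmul, ← h1]
      _ = _ := by rw [hyN _ h2, hτk]
  have hyF : y ^ p ∈ F := by
    refine hF _ fun σ hσ => ?_
    have h1 := hfin ⟨σ, hσ⟩
    have h2 : σ y = (ζ : Ω) ^ (φ ⟨σ, hσ⟩).val * y := h1
    rw [map_pow, h2, mul_pow, ← pow_mul, mul_comm _ p, pow_mul, hζp, one_pow, one_mul]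
  refine ⟨⟨y ^ p, hyF⟩, y, ?_, rfl, hfin⟩
  intro h
  have h1 := congrArg Subtype.val h
  exact pow_ne_zero p hy0 h1

end Pool.Agent.Q193.SP
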